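import Pool.Agent.Work.MP_b5407d_lbm_helper89.MC

/-! Block CON: concavity of `MM` along logarithmic paths for the regular odd polygons. -/

set_option autoImplicit false

open MeasureTheory Set Filter Topology

namespace Pool.LBM

open MC in
theorem blk_CON : Stmt_MT → Stmt_MC → Stmt_NR → Stmt_GO → Stmt_LOC → Stmt_SCH → Stmt_GN →
    Stmt_CON := by
  intro hMT hMC hNR hGO hLOC hSCH hGN hPOS N hN3 hodd h0 h1 hh0 hh1 t0 ht0
  obtain ⟨hNor, hanti⟩ := hNR N hN3
  have hanti := hanti hodd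
  have hpos : ∀ t : ℝ, ∀ j, 0 < h0 j ^ (1 - t) * h1 j ^ t := fun t j =>
    mul_pos (Real.rpow_pos_of_pos (hh0 j) _) (Real.rpow_pos_of_pos (hh1 j) _)
  set f : ℝ → ℝ := fun t => MM (nrm N) (fun j => h0 j ^ (1 - t) * h1 j ^ t) with hf
  have hcont : ContinuousOn f (Icc 0 1) := hMC (Fin N) (nrm N) h0 h1 hNor hh0 hh1
  have hloc : ∀ t ∈ Ioo (0 : ℝ) 1, ∃ α : ℝ, ∀ ε > 0, ∀ᶠ s in 𝓝 (0 : ℝ),
      f (t + s) ≤ f t + α * s + ε * s ^ 2 := by
    intro t _
    set h : Fin N → ℝ := fun j => h0 j ^ (1 - t) * h1 j ^ t with hh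
    have hhpos : ∀ j, 0 < h j := hpos t
    obtain ⟨l, hl, hc1, hc2⟩ := hMT (Fin N) (nrm N) h hNor hhpos
    obtain ⟨n, α, P, ℓ, hG, hsup, hHP⟩ := hGO N h hN3 hhpos
    set θ : ℕ → R2 := fun k => nrm N (α k) with hθ
    have hCen : Cen n θ P l := by
      refine ⟨?_, ?_⟩
      · rw [← hHP]; exact hc1
      · rw [← hHP]; exact hc2
    have hNA : NoAnti θ := fun i k => hanti (α i) (α k)
    have hpP : ∀ k, 0 < dt (θ k) (P k) := by
      intro k
      rw [hθ]
      simp only
      rw [hsup k]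
      exact hhpos _
    set σ : ℕ → ℝ := fun k => Real.log (h1 (α k)) - Real.log (h0 (α k)) with hσ
    have hα : ∀ k, α (k + n) = α k := fun k => hNor.inj (hG.perθ k)
    have hσper : ∀ k, σ (k + n) = σ k := fun k => by simp only [hσ, hα k]
    obtain ⟨lam, β, hβ⟩ := hLOC hPOS n θ P ℓ l hG hCen hNA hpP σ hσper
    refine ⟨β, fun ε hε => ?_⟩
    filter_upwards [hβ ε hε] with s hs
    have hft : f t = Real.log (II (gth n θ) (ex l) (gh n θ P)) := by
      have e1 : f t = Real.log (II (nrm N) (ex l) h) := MM_eq hNor hhpos hl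
      rw [e1]
      unfold II
      rw [hHP]
      rfl
    have hN' : Nor (gth n θ) := (hGN n θ P ℓ hG).1
    have e2 : f (t + s) ≤ Real.log (II (nrm N) (ex (l + s • lam))
        (fun j => h0 j ^ (1 - (t + s)) * h1 j ^ (t + s))) := by
      simp only [hf]
      unfold MM
      exact ciInf_le (bdd hMT hNor (hpos (t + s))) _
    have e3 : II (nrm N) (ex (l + s • lam)) (fun j => h0 j ^ (1 - (t + s)) * h1 j ^ (t + s)) ≤
        II (gth n θ) (ex (l + s • lam))
          (fun k : Fin n => dt (θ k) (P k) * Real.exp (s * σ k)) := by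
      unfold II
      refine setIntegral_mono_set (intOn hN' _ _)
        (Filter.Eventually.of_forall (fun x => (ex_pos _ x).le)) ?_
      refine LE.le.eventuallyLE (fun x hx k => ?_)
      have h2 := hx (α k)
      have h3 : dt (θ k) (P k) * Real.exp (s * σ k) =
          h0 (α k) ^ (1 - (t + s)) * h1 (α k) ^ (t + s) := by
        have h4 : dt (θ k) (P k) = h (α k) := hsup k
        rw [h4]
        simp only [hh, hσ]
        rw [Real.rpow_def_of_pos (hh0 _), Real.rpow_def_of_pos (hh1 _),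
          Real.rpow_def_of_pos (hh0 _), Real.rpow_def_of_pos (hh1 _), ← Real.exp_add,
          ← Real.exp_add, ← Real.exp_add]
        congr 1
        ring
      show dt (gth n θ k) x ≤ dt (θ k) (P k) * Real.exp (s * σ k)
      rw [h3]
      exact h2
    calc f (t + s) ≤ _ := e2
      _ ≤ _ := Real.log_le_log (II_pos hNor _ (hpos (t + s))) e3
      _ ≤ _ := hs
      _ = _ := by rw [hft]
  have hfin := hSCH f hcont hloc t0 ht0
  have e0 : f 0 = MM (nrm N) h0 := by
    simp [hf]
  have e1 : f 1 = MM (nrm N) h1 := by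
    simp [hf]
  rw [e0, e1] at hfin
  exact hfin

end Pool.LBM
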