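import Pool.Agent.Work.MP_b5407d_lbm.Interface

/-! Block MC: continuity of `MM` along logarithmic paths. -/

set_option autoImplicit false

open MeasureTheory Set Filter Topology

namespace Pool.LBM.MC

variable {ι : Type}

theorem closedHP (θ : ι → R2) (h : ι → ℝ) : IsClosed (HP θ h) := by
  have h1 : HP θ h = ⋂ i, {x | dt (θ i) x ≤ h i} := by
    ext x
    simp [HP]
  rw [h1]
  refine isClosed_iInter (fun i => isClosed_le ?_ continuous_const)
  unfold dt
  fun_prop

theorem compactHP {θ : ι → R2} (hN : Nor θ) (h : ι → ℝ) : IsCompact (HP θ h) :=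
  Metric.isCompact_of_isClosed_isBounded (closedHP θ h) (hN.bdd h)

theorem cont_ex (l : R2) : Continuous (ex l) := by
  unfold ex dt
  fun_prop

theorem ex_pos (l x : R2) : 0 < ex l x := Real.exp_pos _

theorem intOn {θ : ι → R2} (hN : Nor θ) (l : R2) (h : ι → ℝ) :
    IntegrableOn (ex l) (HP θ h) :=
  (cont_ex l).continuousOn.integrableOn_compact (compactHP hN h)

theorem vol_pos [Finite ι] {θ : ι → R2} {h : ι → ℝ} (hh : ∀ j, 0 < h j) :
    0 < volume (HP θ h) := by
  have hopen : IsOpen {x : R2 | ∀ i, dt (θ i) x < h i} := by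
    have h1 : {x : R2 | ∀ i, dt (θ i) x < h i} = ⋂ i, {x | dt (θ i) x < h i} := by
      ext x
      simp
    rw [h1]
    refine isOpen_iInter_of_finite (fun i => isOpen_lt ?_ continuous_const)
    unfold dt
    fun_prop
  have h0 : (0 : R2) ∈ {x : R2 | ∀ i, dt (θ i) x < h i} := by
    intro i
    simpa [dt] using hh i
  have hpos := hopen.measure_pos volume ⟨0, h0⟩
  exact lt_of_lt_of_le hpos (measure_mono (fun x hx i => (hx i).le))

theorem II_pos [Finite ι] {θ : ι → R2} (hN : Nor θ) (l : R2) {h : ι → ℝ} (hh : ∀ j, 0 < h j) :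
    0 < II θ (ex l) h := by
  unfold II
  rw [setIntegral_pos_iff_support_of_nonneg_ae
    (Filter.Eventually.of_forall (fun x => (ex_pos l x).le)) (intOn hN l h)]
  have h1 : Function.support (ex l) = univ := by
    ext x
    simp [(ex_pos l x).ne']
  rw [h1, univ_inter]
  exact vol_pos hh

theorem II_mono {θ : ι → R2} (hN : Nor θ) (l : R2) {h h' : ι → ℝ} (hle : ∀ j, h j ≤ h' j) :
    II θ (ex l) h ≤ II θ (ex l) h' := by
  unfold II
  refine setIntegral_mono_set (intOn hN l h')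
    (Filter.Eventually.of_forall (fun x => (ex_pos l x).le)) ?_
  exact LE.le.eventuallyLE (fun x hx i => (hx i).trans (hle i))

theorem bdd (hMT : Stmt_MT) [Fintype ι] {θ : ι → R2} (hN : Nor θ) {h : ι → ℝ}
    (hh : ∀ j, 0 < h j) : BddBelow (range fun l : R2 => Real.log (II θ (ex l) h)) := by
  obtain ⟨l, hl, -⟩ := hMT ι θ h hN hh
  refine ⟨Real.log (II θ (ex l) h), ?_⟩
  rintro _ ⟨l', rfl⟩
  exact Real.log_le_log (II_pos hN l hh) (hl l')

/-- the minimum is attained -/
theorem MM_eq [Fintype ι] {θ : ι → R2} (hN : Nor θ) {h : ι → ℝ}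
    (hh : ∀ j, 0 < h j) {l : R2} (hl : ∀ l', II θ (ex l) h ≤ II θ (ex l') h) :
    MM θ h = Real.log (II θ (ex l) h) := by
  unfold MM
  apply le_antisymm
  · refine ciInf_le ?_ l
    refine ⟨Real.log (II θ (ex l) h), ?_⟩
    rintro _ ⟨l', rfl⟩
    exact Real.log_le_log (II_pos hN l hh) (hl l')
  · exact le_ciInf (fun l' => Real.log_le_log (II_pos hN l hh) (hl l'))

theorem MM_mono (hMT : Stmt_MT) [Fintype ι] {θ : ι → R2} (hN : Nor θ) {h h' : ι → ℝ}
    (hh : ∀ j, 0 < h j) (hle : ∀ j, h j ≤ h' j) : MM θ h ≤ MM θ h' := by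
  unfold MM
  exact ciInf_mono (bdd hMT hN hh)
    (fun l => Real.log_le_log (II_pos hN l hh) (II_mono hN l hle))

open scoped Pointwise in
theorem II_smul {θ : ι → R2} (l : R2) (h : ι → ℝ) {c : ℝ} (hc : 0 < c) :
    II θ (ex l) (fun j => c * h j) = c ^ 2 * II θ (ex (c • l)) h := by
  have hset : c • HP θ h = HP θ (fun j => c * h j) := by
    ext x
    rw [Set.mem_smul_set_iff_inv_smul_mem₀ hc.ne']
    have hd : ∀ i, dt (θ i) (c⁻¹ • x) = c⁻¹ * dt (θ i) x := by
      intro i
      simp [dt]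
      ring
    constructor
    · intro hx i
      have h1 := hx i
      rw [hd] at h1
      have h2 := mul_le_mul_of_nonneg_left h1 hc.le
      rwa [← mul_assoc, mul_inv_cancel₀ hc.ne', one_mul] at h2
    · intro hx i
      rw [hd]
      have h1 := mul_le_mul_of_nonneg_left (hx i) (inv_pos.mpr hc).le
      simpa [← mul_assoc, inv_mul_cancel₀ hc.ne'] using h1
  have h1 := Measure.setIntegral_comp_smul (volume : Measure R2) (ex l) (s := HP θ h) hc.ne'
  rw [hset] at h1
  have hfr : Module.finrank ℝ R2 = 2 := by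
    simp [R2]
  rw [hfr] at h1
  have h2 : ∀ x : R2, ex l (c • x) = ex (c • l) x := by
    intro x
    unfold ex dt
    congr 1
    simp
    ring
  simp only [h2] at h1
  unfold II
  rw [h1, smul_eq_mul, abs_of_pos (inv_pos.mpr (by positivity)), ← mul_assoc,
    mul_inv_cancel₀ (by positivity), one_mul]

theorem MM_smul (hMT : Stmt_MT) [Fintype ι] {θ : ι → R2} (hN : Nor θ) {h : ι → ℝ}
    (hh : ∀ j, 0 < h j) {c : ℝ} (hc : 0 < c) :
    MM θ (fun j => c * h j) = 2 * Real.log c + MM θ h := by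
  obtain ⟨l, hl, -⟩ := hMT ι θ h hN hh
  rw [MM_eq hN hh hl]
  have hch : ∀ j, 0 < c * h j := fun j => mul_pos hc (hh j)
  have h1 : ∀ l', II θ (ex (c⁻¹ • l)) (fun j => c * h j) ≤ II θ (ex l') (fun j => c * h j) := by
    intro l'
    rw [II_smul _ _ hc, II_smul _ _ hc, smul_smul, mul_inv_cancel₀ hc.ne', one_smul]
    exact mul_le_mul_of_nonneg_left (hl _) (by positivity)
  rw [MM_eq hN hch h1, II_smul _ _ hc, smul_smul, mul_inv_cancel₀ hc.ne', one_smul,
    Real.log_mul (by positivity) (II_pos hN l hh).ne', Real.log_pow]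
  push_cast
  ring

end Pool.LBM.MC

namespace Pool.LBM

open MC in
theorem blk_MC : Stmt_MT → Stmt_MC := by
  intro hMT ι _ θ h0 h1 hN hh0 hh1
  set L : ℝ := ∑ j, |Real.log (h1 j) - Real.log (h0 j)| with hL
  have hLnn : 0 ≤ L := Finset.sum_nonneg (fun j _ => abs_nonneg _)
  have hpos : ∀ t : ℝ, ∀ j, 0 < h0 j ^ (1 - t) * h1 j ^ t := fun t j =>
    mul_pos (Real.rpow_pos_of_pos (hh0 j) _) (Real.rpow_pos_of_pos (hh1 j) _)
  have hexp : ∀ t : ℝ, ∀ j, h0 j ^ (1 - t) * h1 j ^ t =
      Real.exp (Real.log (h0 j) + t * (Real.log (h1 j) - Real.log (h0 j))) := by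
    intro t j
    rw [Real.rpow_def_of_pos (hh0 j), Real.rpow_def_of_pos (hh1 j), ← Real.exp_add]
    congr 1
    ring
  have hle : ∀ s t : ℝ, ∀ j, h0 j ^ (1 - s) * h1 j ^ s ≤
      Real.exp (L * |s - t|) * (h0 j ^ (1 - t) * h1 j ^ t) := by
    intro s t j
    rw [hexp, hexp, ← Real.exp_add]
    apply Real.exp_le_exp.mpr
    have h1' : |Real.log (h1 j) - Real.log (h0 j)| ≤ L :=
      Finset.single_le_sum (f := fun j => |Real.log (h1 j) - Real.log (h0 j)|)
        (fun j _ => abs_nonneg _) (Finset.mem_univ j)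
    have h2' : (s - t) * (Real.log (h1 j) - Real.log (h0 j)) ≤ L * |s - t| := by
      refine le_trans (le_abs_self _) ?_
      rw [abs_mul, mul_comm]
      exact mul_le_mul_of_nonneg_right h1' (abs_nonneg _)
    nlinarith [h2']
  have hlip : ∀ s t : ℝ, MM θ (fun j => h0 j ^ (1 - s) * h1 j ^ s) ≤
      2 * (L * |s - t|) + MM θ (fun j => h0 j ^ (1 - t) * h1 j ^ t) := by
    intro s t
    have h2 := MM_mono hMT hN (hpos s) (hle s t)
    rw [MM_smul hMT hN (hpos t) (Real.exp_pos _), Real.log_exp] at h2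
    exact h2
  have hL2 : LipschitzWith (Real.toNNReal (2 * L))
      (fun t : ℝ => MM θ (fun j => h0 j ^ (1 - t) * h1 j ^ t)) := by
    apply LipschitzWith.of_le_add_mul
    intro s t
    have h3 := hlip s t
    rw [Real.coe_toNNReal _ (by positivity), Real.dist_eq]
    linarith
  exact hL2.continuous.continuousOn

end Pool.LBM
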